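import Mathlib

set_option autoImplicit false

open Finset

namespace Pool.Agent.H820.BadTri

variable {Ω : Type} [Fintype Ω] [DecidableEq Ω]

theorem sum_cons {k : ℕ} (F : (Fin (k + 1) → Ω) → ℝ) :
    ∑ x, F x = ∑ w : Ω, ∑ x : Fin k → Ω, F (Fin.cons w x) := by
  rw [← Fintype.sum_prod_type' (f := fun (w : Ω) (x : Fin k → Ω) => F (Fin.cons w x))]
  exact (Fintype.sum_equiv (Fin.consEquiv (fun _ => Ω)) _ _ (fun x => rfl)).symm

/-- variance bound for functions that change by at most one when one coordinate is changed -/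
theorem var_le [Nonempty Ω] : ∀ (k : ℕ) (f : (Fin k → Ω) → ℝ),
    (∀ x i v, f (Function.update x i v) ≤ f x + 1) →
    (Fintype.card Ω : ℝ) ^ k * ∑ x, f x ^ 2 - (∑ x, f x) ^ 2 ≤
      k * ((Fintype.card Ω : ℝ) ^ k) ^ 2
  | 0, f, _ => by simp
  | k + 1, f, hf => by
    obtain ⟨w0⟩ := ‹Nonempty Ω›
    have : Nonempty Ω := ⟨w0⟩
    set m : ℝ := (Fintype.card Ω : ℝ) with hm
    have hm0 : 0 ≤ m := Nat.cast_nonneg _
    set g : Ω → ℝ := fun w => ∑ x : Fin k → Ω, f (Fin.cons w x) with hg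
    have h1 : ∀ w : Ω, m ^ k * ∑ x : Fin k → Ω, f (Fin.cons w x) ^ 2 ≤ g w ^ 2 + k * (m ^ k) ^ 2 := by
      intro w
      have := var_le k (fun x => f (Fin.cons w x)) (fun x i v => by
        have h := hf (Fin.cons w x) i.succ v
        rw [← Fin.cons_update] at h
        exact h)
      linarith
    have hcard : (Fintype.card (Fin k → Ω) : ℝ) = m ^ k := by
      rw [Fintype.card_fun, Fintype.card_fin]; push_cast; rfl
    have h2 : ∀ w w' : Ω, g w ≤ g w' + m ^ k := by
      intro w w'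
      have : ∀ x : Fin k → Ω, f (Fin.cons w x) ≤ f (Fin.cons w' x) + 1 := by
        intro x
        have h := hf (Fin.cons w' x) 0 w
        rwa [Fin.update_cons_zero] at h
      calc g w ≤ ∑ x : Fin k → Ω, (f (Fin.cons w' x) + 1) := sum_le_sum fun x _ => this x
        _ = g w' + m ^ k := by
          rw [sum_add_distrib, sum_const, card_univ, nsmul_eq_mul, mul_one, hcard]
    have h3 : m * ∑ w, g w ^ 2 - (∑ w, g w) ^ 2 ≤ m ^ 2 * (m ^ k) ^ 2 := by
      have h4 : ∑ w, (g w - g w0) ^ 2 = ∑ w, g w ^ 2 - 2 * g w0 * ∑ w, g w + m * g w0 ^ 2 := by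
        have : ∀ w, (g w - g w0) ^ 2 = g w ^ 2 - 2 * g w0 * g w + g w0 ^ 2 := fun w => by ring
        simp only [this]
        rw [sum_add_distrib, sum_sub_distrib, ← mul_sum, sum_const, card_univ, nsmul_eq_mul]
      have h5 : ∑ w, (g w - g w0) ^ 2 ≤ m * (m ^ k) ^ 2 := by
        calc ∑ w, (g w - g w0) ^ 2 ≤ ∑ w : Ω, (m ^ k) ^ 2 := by
              refine sum_le_sum fun w _ => ?_
              have a := h2 w w0
              have b := h2 w0 w
              exact sq_le_sq' (by linarith) (by linarith)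
          _ = m * (m ^ k) ^ 2 := by rw [sum_const, card_univ, nsmul_eq_mul]
      have h6 : 0 ≤ (∑ w, g w - m * g w0) ^ 2 := sq_nonneg _
      have h7 := mul_le_mul_of_nonneg_left h5 hm0
      rw [h4] at h7
      nlinarith
    rw [sum_cons (fun x => f x ^ 2), sum_cons f]
    change m ^ (k + 1) * ∑ w : Ω, ∑ x : Fin k → Ω, f (Fin.cons w x) ^ 2 - (∑ w, g w) ^ 2 ≤ _
    have h8 : m ^ (k + 1) * ∑ w : Ω, ∑ x : Fin k → Ω, f (Fin.cons w x) ^ 2 ≤
        m * (∑ w, g w ^ 2 + m * (k * (m ^ k) ^ 2)) := by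
      rw [pow_succ', mul_assoc, mul_sum]
      refine mul_le_mul_of_nonneg_left ?_ hm0
      calc ∑ w : Ω, m ^ k * ∑ x : Fin k → Ω, f (Fin.cons w x) ^ 2
          ≤ ∑ w : Ω, (g w ^ 2 + k * (m ^ k) ^ 2) := sum_le_sum fun w _ => h1 w
        _ = _ := by rw [sum_add_distrib, sum_const, card_univ, nsmul_eq_mul]
    have h9 : (m ^ (k + 1)) ^ 2 = m ^ 2 * (m ^ k) ^ 2 := by ring
    push_cast
    rw [h9]
    nlinarith

/-- the Hamming distance to a set -/
noncomputable def dA {k : ℕ} (A : Finset (Fin k → Ω)) (hA : A.Nonempty) (x : Fin k → Ω) : ℕ :=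
  A.inf' hA (fun a => hammingDist x a)

theorem exists_dA {k : ℕ} (A : Finset (Fin k → Ω)) (hA : A.Nonempty) (x : Fin k → Ω) :
    ∃ a ∈ A, hammingDist x a = dA A hA x := by
  obtain ⟨a, ha, h⟩ := Finset.exists_mem_eq_inf' hA (fun a => hammingDist x a)
  exact ⟨a, ha, h.symm⟩

theorem dA_zero {k : ℕ} (A : Finset (Fin k → Ω)) (hA : A.Nonempty) {x : Fin k → Ω} (hx : x ∈ A) :
    dA A hA x = 0 := by
  have : dA A hA x ≤ hammingDist x x := Finset.inf'_le _ hx
  simpa using this

theorem hd_update {k : ℕ} (x : Fin k → Ω) (i : Fin k) (v : Ω) :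
    hammingDist (Function.update x i v) x ≤ 1 := by
  unfold hammingDist
  calc _ ≤ #({i} : Finset (Fin k)) := by
        refine card_le_card fun j hj => ?_
        rw [mem_filter] at hj
        rw [mem_singleton]
        by_contra h
        exact hj.2 (Function.update_of_ne h _ _)
    _ = 1 := card_singleton i

theorem dA_update {k : ℕ} (A : Finset (Fin k → Ω)) (hA : A.Nonempty) (x : Fin k → Ω) (i : Fin k)
    (v : Ω) : dA A hA (Function.update x i v) ≤ dA A hA x + 1 := by
  obtain ⟨a, ha, h⟩ := exists_dA A hA x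
  calc dA A hA (Function.update x i v) ≤ hammingDist (Function.update x i v) a :=
        Finset.inf'_le _ ha
    _ ≤ hammingDist (Function.update x i v) x + hammingDist x a := hammingDist_triangle _ _ _
    _ ≤ 1 + dA A hA x := by rw [h]; exact Nat.add_le_add_right (hd_update x i v) _
    _ = _ := by ring

/-- concentration: a set of density `lam` has most points within distance `kap * k` -/
theorem conc [Nonempty Ω] {k : ℕ} {kap lam : ℝ} (hkap : 0 < kap) (hlam : 0 < lam)
    (hk : 8 / (kap ^ 2 * lam) < k) (A : Finset (Fin k → Ω)) (hA : A.Nonempty)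
    (hcard : lam * (Fintype.card Ω : ℝ) ^ k ≤ A.card) :
    (#{x | kap * k < (dA A hA x : ℝ)} : ℝ) < lam * (Fintype.card Ω : ℝ) ^ k / 2 := by
  set N : ℝ := (Fintype.card Ω : ℝ) ^ k with hN
  have hN0 : 0 < N := by
    have : (0 : ℝ) < Fintype.card Ω := by exact_mod_cast Fintype.card_pos
    positivity
  have hcN : (Fintype.card (Fin k → Ω) : ℝ) = N := by
    rw [Fintype.card_fun, Fintype.card_fin]; push_cast; rfl
  set f : (Fin k → Ω) → ℝ := fun x => (dA A hA x : ℝ) with hf
  have hv := var_le k f (fun x i v => by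
    have := dA_update A hA x i v
    have h' : ((dA A hA (Function.update x i v) : ℕ) : ℝ) ≤ ((dA A hA x + 1 : ℕ) : ℝ) := by
      exact_mod_cast this
    push_cast at h'
    exact h')
  rw [← hN] at hv
  set mu : ℝ := (∑ x, f x) / N with hmu
  have hmu0 : 0 ≤ mu := div_nonneg (sum_nonneg fun x _ => Nat.cast_nonneg _) hN0.le
  have hsum : ∑ x, f x = mu * N := by rw [hmu]; field_simp
  have h1 : ∑ x, (f x - mu) ^ 2 ≤ k * N := by
    have h2 : ∑ x, (f x - mu) ^ 2 = ∑ x, f x ^ 2 - mu ^ 2 * N := by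
      have : ∀ x, (f x - mu) ^ 2 = f x ^ 2 - 2 * mu * f x + mu ^ 2 := fun x => by ring
      simp only [this]
      rw [sum_add_distrib, sum_sub_distrib, ← mul_sum, sum_const, card_univ, nsmul_eq_mul, hcN,
        hsum]
      ring
    rw [hsum] at hv
    have h3 : N * (∑ x, f x ^ 2 - mu ^ 2 * N) ≤ N * (k * N) := by nlinarith
    rw [h2]
    exact le_of_mul_le_mul_left h3 hN0
  have hk0 : (0 : ℝ) < k := lt_trans (by positivity) hk
  have hk1 : 8 < kap ^ 2 * lam * k := by
    rw [div_lt_iff₀ (by positivity)] at hk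
    linarith
  have h4 : (A.card : ℝ) * mu ^ 2 ≤ k * N := by
    calc (A.card : ℝ) * mu ^ 2 = ∑ x ∈ A, (f x - mu) ^ 2 := by
          rw [sum_congr rfl (g := fun _ => mu ^ 2), sum_const, nsmul_eq_mul]
          intro x hx
          have : f x = 0 := by simp only [hf, dA_zero A hA hx, Nat.cast_zero]
          rw [this]; ring
      _ ≤ ∑ x, (f x - mu) ^ 2 := sum_le_univ_sum_of_nonneg fun x => sq_nonneg _
      _ ≤ k * N := h1
  have h5 : lam * mu ^ 2 ≤ k := by
    have h6 : lam * N * mu ^ 2 ≤ (A.card : ℝ) * mu ^ 2 :=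
      mul_le_mul_of_nonneg_right hcard (sq_nonneg _)
    have h7 : N * (lam * mu ^ 2) ≤ N * k := by nlinarith
    exact le_of_mul_le_mul_left h7 hN0
  have h8 : mu < kap * k / 2 := by
    by_contra hcon
    push Not at hcon
    have h9 : (kap * k / 2) ^ 2 ≤ mu ^ 2 := pow_le_pow_left₀ (by positivity) hcon 2
    have h10 : lam * (kap * k / 2) ^ 2 ≤ k := (mul_le_mul_of_nonneg_left h9 hlam.le).trans h5
    have h11 : (kap ^ 2 * lam * k) * k ≤ 4 * k := by nlinarith
    have h12 : kap ^ 2 * lam * k ≤ 4 := le_of_mul_le_mul_right h11 hk0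
    linarith
  set B : Finset (Fin k → Ω) := {x | kap * k < (dA A hA x : ℝ)} with hB
  have h13 : (B.card : ℝ) * (kap * k / 2) ^ 2 ≤ k * N := by
    calc (B.card : ℝ) * (kap * k / 2) ^ 2 = ∑ x ∈ B, (kap * k / 2) ^ 2 := by
          rw [sum_const, nsmul_eq_mul]
      _ ≤ ∑ x ∈ B, (f x - mu) ^ 2 := by
          refine sum_le_sum fun x hx => ?_
          rw [hB, mem_filter] at hx
          have : kap * k < f x := hx.2
          exact pow_le_pow_left₀ (by positivity) (by linarith) 2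
      _ ≤ ∑ x, (f x - mu) ^ 2 := sum_le_univ_sum_of_nonneg fun x => sq_nonneg _
      _ ≤ k * N := h1
  have h14 : (B.card : ℝ) * (kap ^ 2 * k) ≤ 4 * N := by
    have : (B.card : ℝ) * (kap ^ 2 * k) * k ≤ 4 * N * k := by nlinarith
    exact le_of_mul_le_mul_right this hk0
  have h15 : (B.card : ℝ) * 8 ≤ (B.card : ℝ) * (kap ^ 2 * lam * k) :=
    mul_le_mul_of_nonneg_left hk1.le (Nat.cast_nonneg _)
  rcases eq_or_lt_of_le (Nat.cast_nonneg (α := ℝ) B.card) with h0 | h0
  · rw [← h0]; positivity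
  · have h16 : (B.card : ℝ) * 8 < (B.card : ℝ) * (kap ^ 2 * lam * k) :=
      mul_lt_mul_of_pos_left hk1 h0
    nlinarith

end Pool.Agent.H820.BadTri
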