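import Pool.Agent.H820.BadTri.Conc

set_option autoImplicit false

open Finset

namespace Pool.Agent.H820.BadTri

/-- the real Hilbert space `ℓ²` -/
abbrev H : Type := lp (fun _ : ℕ => ℝ) 2

theorem triple {M : ℕ} [NeZero M] {k : ℕ} {kap lam : ℝ} (hkap : 0 < kap) (hlam : 0 < lam)
    (hk : 8 / (kap ^ 2 * lam) < k) (A : Finset (Fin k → ZMod M)) (hA : A.Nonempty)
    (hcard : lam * (Fintype.card (ZMod M) : ℝ) ^ k ≤ A.card) :
    ∃ x ∈ A, ∃ y ∈ A, ∃ z ∈ A, (hammingDist (x + 1) y : ℝ) ≤ kap * k ∧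
      (hammingDist (x + 1 + 1) z : ℝ) ≤ kap * k := by
  classical
  have hB := conc hkap hlam hk A hA hcard
  set B : Finset (Fin k → ZMod M) := {x | kap * k < (dA A hA x : ℝ)} with hBdef
  have key : ∃ x ∈ A, x + 1 ∉ B ∧ x + 1 + 1 ∉ B := by
    by_contra hcon
    push Not at hcon
    have hsub : A ⊆ B.image (fun x => x - 1) ∪ B.image (fun x => x - 1 - 1) := by
      intro x hx
      rw [mem_union, mem_image, mem_image]
      by_cases h : x + 1 ∈ B
      · exact Or.inl ⟨x + 1, h, by simp⟩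
      · exact Or.inr ⟨x + 1 + 1, hcon x hx h, by simp⟩
    have h1 := (card_le_card hsub).trans (card_union_le _ _)
    have h2 := h1.trans (Nat.add_le_add card_image_le card_image_le)
    have h3 : (A.card : ℝ) ≤ B.card + B.card := by exact_mod_cast h2
    linarith
  obtain ⟨x, hx, h1, h2⟩ := key
  simp only [hBdef, mem_filter, mem_univ, true_and, not_lt] at h1 h2
  obtain ⟨y, hy, hy'⟩ := exists_dA A hA (x + 1)
  obtain ⟨z, hz, hz'⟩ := exists_dA A hA (x + 1 + 1)
  exact ⟨x, hx, y, hy, z, hz, by rw [hy']; exact h1, by rw [hz']; exact h2⟩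

/-- an orthonormal sequence of `ℓ²` -/
noncomputable def bas : HilbertBasis ℕ ℝ H := HilbertBasis.ofRepr (LinearIsometryEquiv.refl ℝ H)

/-- the coefficients of a complex vector -/
noncomputable def cf {k : ℕ} (w : Fin k → ℂ) (p : Fin k × Bool) : ℝ :=
  if p.2 then (w p.1).re else (w p.1).im

/-- an isometric copy of `ℂ^k` in `ℓ²` -/
noncomputable def emb {k : ℕ} (w : Fin k → ℂ) : H :=
  ∑ p : Fin k × Bool, cf w p • bas (Encodable.encode p)

theorem emb_dist {k : ℕ} (w w' : Fin k → ℂ) :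
    ‖emb w - emb w'‖ ^ 2 = ∑ j, ‖w j - w' j‖ ^ 2 := by
  have ho : Orthonormal ℝ (fun p : Fin k × Bool => bas (Encodable.encode p)) :=
    bas.orthonormal.comp _ Encodable.encode_injective
  have h1 : emb w - emb w' = ∑ p : Fin k × Bool, (cf w p - cf w' p) • bas (Encodable.encode p) := by
    unfold emb
    rw [← sum_sub_distrib]
    exact sum_congr rfl fun p _ => (sub_smul _ _ _).symm
  rw [h1, ← real_inner_self_eq_norm_sq, ho.inner_sum, Fintype.sum_prod_type]
  refine sum_congr rfl fun j _ => ?_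
  rw [Fintype.sum_bool, ← Complex.normSq_eq_norm_sq, Complex.normSq_apply]
  simp [cf]

end Pool.Agent.H820.BadTri
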