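import Pool.Agent.H820.BadTri.Emb

set_option autoImplicit false

open Finset

namespace Pool.Agent.H820.BadTri

theorem exists_root {δ : ℝ} (hδ : δ < 1) : ∃ M : ℕ, ∃ _ : NeZero M,
    0 < ‖(ZMod.stdAddChar (1 : ZMod M) : ℂ) - 1‖ ∧
    1 + δ < ‖(ZMod.stdAddChar (1 : ZMod M) : ℂ) + 1‖ := by
  obtain ⟨M', hM'⟩ := exists_nat_gt (2 * Real.pi / (1 - δ))
  have hM0 : (0 : ℝ) < ((M' + 2 : ℕ) : ℝ) := by positivity
  have hM : 2 * Real.pi / ((M' + 2 : ℕ) : ℝ) < 1 - δ := by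
    have h1 : 0 < 1 - δ := by linarith
    rw [div_lt_iff₀ h1] at hM'
    rw [div_lt_iff₀ hM0]
    push_cast
    nlinarith
  refine ⟨M' + 2, ⟨by omega⟩, ?_, ?_⟩
  · rw [norm_pos_iff, sub_ne_zero]
    intro h
    have h1 : (ZMod.stdAddChar (1 : ZMod (M' + 2)) : ℂ) = ZMod.stdAddChar (0 : ZMod (M' + 2)) := by
      rw [h, AddChar.map_zero_eq_one]
    have h2 := ZMod.injective_stdAddChar h1
    have : Fact (1 < M' + 2) := ⟨by omega⟩
    exact one_ne_zero h2
  · have h1 : (ZMod.stdAddChar (1 : ZMod (M' + 2)) : ℂ) =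
        Complex.exp (Complex.I * ((2 * Real.pi / ((M' + 2 : ℕ) : ℝ) : ℝ) : ℂ)) := by
      have := ZMod.stdAddChar_coe (N := M' + 2) 1
      rw [Int.cast_one] at this
      rw [this]
      congr 1
      push_cast
      ring
    have h2 : ‖(ZMod.stdAddChar (1 : ZMod (M' + 2)) : ℂ) - 1‖ ≤ 2 * Real.pi / ((M' + 2 : ℕ) : ℝ) := by
      rw [h1]
      refine (Real.norm_exp_I_mul_ofReal_sub_one_le (x := 2 * Real.pi / ((M' + 2 : ℕ) : ℝ))).trans ?_
      rw [Real.norm_of_nonneg (by positivity)]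
    set ζ : ℂ := ZMod.stdAddChar (1 : ZMod (M' + 2)) with hζ
    have h3 : ‖(2 : ℂ)‖ ≤ ‖ζ + 1‖ + ‖ζ - 1‖ := by
      have : (2 : ℂ) = (ζ + 1) - (ζ - 1) := by ring
      rw [this]
      exact norm_sub_le _ _
    have h4 : ‖(2 : ℂ)‖ = 2 := by norm_num
    linarith

theorem exists_points {δ lam : ℝ} (h0 : 0 < δ) (hδ : δ < 1) (hlam : 0 < lam) :
    ∃ n : ℕ, 1 ≤ n ∧ ∃ x : Fin n → H, ∀ I : Finset (Fin n), lam * n ≤ (I.card : ℝ) →
      ∃ i ∈ I, ∃ j ∈ I, ∃ l ∈ I, dist (x i) (x j) ≤ 1 ∧ dist (x j) (x l) ≤ 1 ∧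
        1 + δ ≤ dist (x i) (x l) := by
  classical
  obtain ⟨M, hM, hc, hz⟩ := exists_root hδ
  set e : AddChar (ZMod M) ℂ := ZMod.stdAddChar with he
  set c : ℝ := ‖e 1 - 1‖ with hcdef
  have hnorm : ∀ a : ZMod M, ‖e a‖ = 1 := fun a => by
    rw [he, ZMod.stdAddChar_apply]; exact Circle.norm_coe _
  set eta : ℝ := c * (‖e 1 + 1‖ - 1 - δ) / 5 with heta
  have heta0 : 0 < eta := by
    have : 0 < ‖e 1 + 1‖ - 1 - δ := by linarith
    positivity
  set kap : ℝ := eta ^ 2 / 4 with hkap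
  have hkap0 : 0 < kap := by positivity
  obtain ⟨k, hk⟩ := exists_nat_gt (8 / (kap ^ 2 * lam))
  have hk0 : (0 : ℝ) < k := lt_trans (by positivity) hk
  set s : ℝ := Real.sqrt k with hs
  have hs0 : 0 < s := Real.sqrt_pos.2 hk0
  have hs2 : s ^ 2 = k := Real.sq_sqrt hk0.le
  -- distances
  set E : (Fin k → ZMod M) → H := fun x => emb (fun j => e (x j)) with hE
  have hF1 : ∀ x y : Fin k → ZMod M, ‖E x - E y‖ ^ 2 ≤ 4 * (hammingDist x y : ℝ) := by
    intro x y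
    rw [hE, emb_dist]
    have h1 : ∀ j, ‖e (x j) - e (y j)‖ ^ 2 ≤ if x j ≠ y j then (4 : ℝ) else 0 := by
      intro j
      split_ifs with h
      · have h2 : ‖e (x j) - e (y j)‖ ≤ 2 := by
          refine (norm_sub_le _ _).trans ?_
          rw [hnorm, hnorm]; norm_num
        have h3 : 0 ≤ ‖e (x j) - e (y j)‖ := norm_nonneg _
        nlinarith
      · push Not at h
        rw [h]; simp
    refine (sum_le_sum fun j _ => h1 j).trans (le_of_eq ?_)
    rw [← sum_filter, sum_const, nsmul_eq_mul, mul_comm]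
    rfl
  have hF2 : ∀ x : Fin k → ZMod M, ‖E x - E (x + 1)‖ = s * c := by
    intro x
    have h1 : ‖E x - E (x + 1)‖ ^ 2 = (s * c) ^ 2 := by
      rw [hE, emb_dist, mul_pow, hs2]
      have h2 : ∀ j : Fin k, ‖e (x j) - e ((x + 1) j)‖ ^ 2 = c ^ 2 := by
        intro j
        have h3 : e (x j) - e ((x + 1) j) = e (x j) * (-(e 1 - 1)) := by
          rw [Pi.add_apply, Pi.one_apply, AddChar.map_add_eq_mul]; ring
        rw [h3, norm_mul, hnorm, norm_neg, one_mul]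
      rw [sum_congr rfl fun j _ => h2 j, sum_const, card_univ, Fintype.card_fin, nsmul_eq_mul]
    exact (pow_left_inj₀ (norm_nonneg _) (by positivity) two_ne_zero).1 h1
  have hF3 : ∀ x : Fin k → ZMod M, ‖E x - E (x + 1 + 1)‖ = s * (c * ‖e 1 + 1‖) := by
    intro x
    have h1 : ‖E x - E (x + 1 + 1)‖ ^ 2 = (s * (c * ‖e 1 + 1‖)) ^ 2 := by
      rw [hE, emb_dist, mul_pow, hs2]
      have h2 : ∀ j : Fin k, ‖e (x j) - e ((x + 1 + 1) j)‖ ^ 2 = (c * ‖e 1 + 1‖) ^ 2 := by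
        intro j
        have h3 : e (x j) - e ((x + 1 + 1) j) = e (x j) * (-((e 1 - 1) * (e 1 + 1))) := by
          rw [Pi.add_apply, Pi.add_apply, Pi.one_apply, AddChar.map_add_eq_mul,
            AddChar.map_add_eq_mul]; ring
        rw [h3, norm_mul, hnorm, norm_neg, one_mul, norm_mul]
      rw [sum_congr rfl fun j _ => h2 j, sum_const, card_univ, Fintype.card_fin, nsmul_eq_mul]
    exact (pow_left_inj₀ (norm_nonneg _) (by positivity) two_ne_zero).1 h1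
  have hF4 : ∀ x y : Fin k → ZMod M, (hammingDist x y : ℝ) ≤ kap * k → ‖E x - E y‖ ≤ s * eta := by
    intro x y h
    have h1 : ‖E x - E y‖ ^ 2 ≤ (s * eta) ^ 2 := by
      refine (hF1 x y).trans ?_
      rw [mul_pow, hs2]
      nlinarith
    exact (pow_le_pow_iff_left₀ (norm_nonneg _) (by positivity) two_ne_zero).1 h1
  set r : ℝ := 1 / (s * (c + 2 * eta)) with hr
  have hr0 : 0 < r := by positivity
  have hr1 : r * (s * (c + 2 * eta)) = 1 := by rw [hr]; field_simp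
  set n : ℕ := Fintype.card (Fin k → ZMod M) with hn
  have hn1 : 1 ≤ n := Fintype.card_pos
  have hnN : (n : ℝ) = (Fintype.card (ZMod M) : ℝ) ^ k := by
    rw [hn, Fintype.card_fun, Fintype.card_fin]; push_cast; rfl
  set q : Fin n ≃ (Fin k → ZMod M) := (Fintype.equivFin _).symm with hq
  refine ⟨n, hn1, fun i => r • E (q i), ?_⟩
  intro I hI
  have hIne : I.Nonempty := by
    rw [← card_pos]
    have : (0 : ℝ) < I.card := lt_of_lt_of_le (by positivity) hI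
    exact_mod_cast this
  set A : Finset (Fin k → ZMod M) := I.map q.toEmbedding with hA
  have hAne : A.Nonempty := hIne.map
  have hAc : lam * (Fintype.card (ZMod M) : ℝ) ^ k ≤ A.card := by
    rw [hA, card_map, ← hnN]; exact hI
  obtain ⟨x, hx, y, hy, z, hz', hxy, hxz⟩ := triple hkap0 hlam hk A hAne hAc
  rw [hA, mem_map] at hx hy hz'
  obtain ⟨i, hi, rfl⟩ := hx
  obtain ⟨j, hj, rfl⟩ := hy
  obtain ⟨l, hl, rfl⟩ := hz'
  refine ⟨i, hi, j, hj, l, hl, ?_, ?_, ?_⟩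
  all_goals
    simp only [Equiv.coe_toEmbedding] at hxy hxz ⊢
    rw [dist_eq_norm, ← smul_sub, norm_smul, Real.norm_of_nonneg hr0.le]
  · have h1 : ‖E (q i) - E (q j)‖ ≤ s * (c + 2 * eta) := by
      calc ‖E (q i) - E (q j)‖ = ‖(E (q i) - E (q i + 1)) + (E (q i + 1) - E (q j))‖ := by
            congr 1; abel
        _ ≤ ‖E (q i) - E (q i + 1)‖ + ‖E (q i + 1) - E (q j)‖ := norm_add_le _ _
        _ ≤ s * c + s * eta := add_le_add (hF2 _).le (hF4 _ _ hxy)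
        _ ≤ s * (c + 2 * eta) := by nlinarith [mul_pos hs0 heta0]
    calc r * ‖E (q i) - E (q j)‖ ≤ r * (s * (c + 2 * eta)) := mul_le_mul_of_nonneg_left h1 hr0.le
      _ = 1 := hr1
  · have h1 : ‖E (q j) - E (q l)‖ ≤ s * (c + 2 * eta) := by
      have h2 : ‖E (q j) - E (q i + 1)‖ ≤ s * eta := by
        rw [norm_sub_rev]; exact hF4 _ _ hxy
      have h3 : ‖E (q j) - E (q l)‖ ≤ ‖E (q j) - E (q i + 1)‖ + ‖E (q i + 1) - E (q i + 1 + 1)‖ +
          ‖E (q i + 1 + 1) - E (q l)‖ := by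
        calc ‖E (q j) - E (q l)‖ = ‖((E (q j) - E (q i + 1)) + (E (q i + 1) - E (q i + 1 + 1))) +
              (E (q i + 1 + 1) - E (q l))‖ := by congr 1; abel
          _ ≤ _ := (norm_add_le _ _).trans (add_le_add_left (norm_add_le _ _) _)
      have h4 := hF2 (q i + 1)
      have h5 := hF4 _ _ hxz
      calc _ ≤ _ := h3
        _ ≤ s * eta + s * c + s * eta := add_le_add (add_le_add h2 h4.le) h5
        _ = s * (c + 2 * eta) := by ring
    calc r * ‖E (q j) - E (q l)‖ ≤ r * (s * (c + 2 * eta)) := mul_le_mul_of_nonneg_left h1 hr0.le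
      _ = 1 := hr1
  · have h1 : s * (c * ‖e 1 + 1‖) ≤ ‖E (q i) - E (q l)‖ + s * eta := by
      rw [← hF3 (q i)]
      calc ‖E (q i) - E (q i + 1 + 1)‖ = ‖(E (q i) - E (q l)) - (E (q i + 1 + 1) - E (q l))‖ := by
            congr 1; abel
        _ ≤ ‖E (q i) - E (q l)‖ + ‖E (q i + 1 + 1) - E (q l)‖ := norm_sub_le _ _
        _ ≤ _ := by
          have := hF4 _ _ hxz
          linarith
    have h2 : (1 + δ) * (s * (c + 2 * eta)) ≤ ‖E (q i) - E (q l)‖ := by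
      have h3 : c * ‖e 1 + 1‖ - eta ≥ (1 + δ) * (c + 2 * eta) := by
        have : c * ‖e 1 + 1‖ = 5 * eta + (1 + δ) * c := by rw [heta]; ring
        rw [this]
        nlinarith
      have h4 := mul_le_mul_of_nonneg_left h3 hs0.le
      nlinarith
    calc 1 + δ = r * ((1 + δ) * (s * (c + 2 * eta))) := by
          rw [mul_left_comm, hr1, mul_one]
      _ ≤ r * ‖E (q i) - E (q l)‖ := mul_le_mul_of_nonneg_left h2 hr0.le

end Pool.Agent.H820.BadTri
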